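import Pool.Agent.Helper26.SK.EvalBasic

/-!
# Isotopy invariance of the evaluation: the moves with vertices
-/

namespace Pool.Agent.Helper26.SK

open Str Piece

namespace VertM

/-- Formal sums of coloured lists with an integer and an exponent of `ζ`. -/
abbrev FS : Type := List (ℤ × ZMod 3 × List CS)

/-- The local action of a piece on the strands entering it. -/
def locF (p : Piece) (s : List CS) : FS :=
  match p with
  | cr _ o =>
    match s with
    | [x, y] => [(1, cx o x y, [y, x])]
    | _ => []
  | cup i u k => (loc (cup i u k) s).map fun z => (z.1, 0, z.2)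
  | cap i => (loc (cap i) s).map fun z => (z.1, 0, z.2)
  | merge i k l => (loc (merge i k l) s).map fun z => (z.1, 0, z.2)
  | split i k l => (loc (split i k l) s).map fun z => (z.1, 0, z.2)

/-- The action of a piece. -/
def stepF (p : Piece) (s : List CS) : FS :=
  (locF p ((s.drop p.pos).take (p.inn 3))).map fun z =>
    (z.1, z.2.1, s.take p.pos ++ (z.2.2 ++ (s.drop p.pos).drop (p.inn 3)))

/-- The action of a diagram. -/
def runF : List Piece → List CS → Option FS
  | [], s => some [(1, 0, s)]
  | p :: D, s =>
    if p.pos + p.inn 3 ≤ s.length then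
      (stepF p s).foldr (fun z acc =>
        match runF D z.2.2, acc with
        | some X, some Y =>
          some (X.map (fun w => (z.1 * w.1, z.2.1 + w.2.1, w.2.2)) ++ Y)
        | _, _ => none) (some [])
    else none

/-- The value of a formal sum. -/
noncomputable def val (ζ : ℂ) (R : List CS) (k : Cont) (Z : FS) : ℂ :=
  (Z.map fun z => (z.1 : ℂ) * zp ζ z.2.1 * k (z.2.2 ++ R)).sum

variable {ζ : ℂ}

theorem zp_zero : zp ζ 0 = 1 := by
  simp [zp]

theorem zp_add (hζ : ζ ^ 3 = 1) (e f : ZMod 3) : zp ζ (e + f) = zp ζ e * zp ζ f := by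
  unfold zp
  rw [ZMod.val_add, ← pow_add]
  exact (pow_eq_pow_mod _ hζ).symm

theorem exists_shift (p : Piece) : ∃ p' : Piece, p = p'.shift p.pos ∧ p'.pos = 0 := by
  cases p with
  | cup i u k => exact ⟨cup 0 u k, by simp [Piece.shift, Piece.pos], rfl⟩
  | cap i => exact ⟨cap 0, by simp [Piece.shift, Piece.pos], rfl⟩
  | cr i o => exact ⟨cr 0 o, by simp [Piece.shift, Piece.pos], rfl⟩
  | merge i k l => exact ⟨merge 0 k l, by simp [Piece.shift, Piece.pos], rfl⟩
  | split i k l => exact ⟨split 0 k l, by simp [Piece.shift, Piece.pos], rfl⟩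

theorem base_locF (p : Piece) (b c : List CS) (hb : b.length = p.inn 3) (k : Cont) :
    base ζ p (b ++ c) k =
      ((locF p b).map fun z => (z.1 : ℂ) * zp ζ z.2.1 * k (z.2.2 ++ c)).sum := by
  have key : ∀ q : Piece, b.length = q.inn 3 → baseLoc q (b ++ c) k =
      (((loc q b).map fun z => ((z.1, 0, z.2) : ℤ × ZMod 3 × List CS)).map
        fun z => (z.1 : ℂ) * zp ζ z.2.1 * k (z.2.2 ++ c)).sum := by
    intro q hq
    unfold baseLoc
    rw [List.take_left' hq, List.drop_left' hq, if_pos (by simp [hq]), List.map_map]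
    congr 1
    apply List.map_congr_left
    intro z _
    simp [zp_zero]
  cases p with
  | cr i o =>
    match b, hb with
    | [x, y], _ => simp [base, baseCr, locF]
  | cup i u k => exact key _ hb
  | cap i => exact key _ hb
  | merge i k l => exact key _ hb
  | split i k l => exact key _ hb

theorem locF_shift (p : Piece) (n : ℕ) (b : List CS) : locF (p.shift n) b = locF p b := by
  cases p <;> rfl

theorem act_stepF (p : Piece) (s R : List CS) (h : p.pos + p.inn 3 ≤ s.length) (k : Cont) :
    act ζ p (s ++ R) k = val ζ R k (stepF p s) := by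
  obtain ⟨p', hp, hp0⟩ := exists_shift p
  have hlen : (s.take p.pos).length = p.pos := by
    rw [List.length_take]; omega
  have hin : p'.inn 3 = p.inn 3 := by
    conv_rhs => rw [hp]
    rw [inn_shift]
  have e1 : s ++ R = s.take p.pos ++ (((s.drop p.pos).take (p.inn 3)) ++
      ((s.drop p.pos).drop (p.inn 3) ++ R)) := by
    rw [← List.append_assoc ((s.drop p.pos).take (p.inn 3)), List.take_append_drop,
      ← List.append_assoc, List.take_append_drop]
  have hl : ((s.drop p.pos).take (p.inn 3)).length = p'.inn 3 := by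
    rw [List.length_take, List.length_drop, hin]; omega
  unfold val stepF
  conv_lhs => rw [hp, e1]
  rw [act_shift_of_length p' (s.take p.pos) _ hlen, act_zero hp0, base_locF p' _ _ hl]
  have hloc : locF p ((s.drop p.pos).take (p.inn 3)) = locF p' ((s.drop p.pos).take (p.inn 3)) := by
    conv_lhs => rw [hp]
    rw [locF_shift, inn_shift, hin, hp, pos_shift, hp0, Nat.zero_add]
  rw [hloc, List.map_map]
  congr 1
  apply List.map_congr_left
  intro z _
  simp

theorem val_append (R : List CS) (k : Cont) (X Y : FS) :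
    val ζ R k (X ++ Y) = val ζ R k X + val ζ R k Y := by
  simp [val]

theorem val_cons (R : List CS) (k : Cont) (z : ℤ × ZMod 3 × List CS) (Y : FS) :
    val ζ R k (z :: Y) = (z.1 : ℂ) * zp ζ z.2.1 * k (z.2.2 ++ R) + val ζ R k Y := by
  simp [val]

theorem val_scale (hζ : ζ ^ 3 = 1) (R : List CS) (k : Cont) (a : ℤ) (e : ZMod 3) (X : FS) :
    val ζ R k (X.map fun w => (a * w.1, e + w.2.1, w.2.2)) =
      (a : ℂ) * zp ζ e * val ζ R k X := by
  induction X with
  | nil => simp [val]
  | cons x X ih =>
    rw [List.map_cons, val_cons, ih, val_cons]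
    simp only [zp_add hζ]
    push_cast
    ring

theorem actW_runF (hζ : ζ ^ 3 = 1) (D : List Piece) (s R : List CS) (k : Cont) (Z : FS)
    (h : runF D s = some Z) : actW ζ D (s ++ R) k = val ζ R k Z := by
  induction D generalizing s Z with
  | nil =>
    simp only [runF, Option.some.injEq] at h
    subst h
    simp [actW, val, zp_zero]
  | cons p D ih =>
    simp only [runF] at h
    split_ifs at h with hs
    change act ζ p (s ++ R) (fun t => actW ζ D t k) = _
    rw [act_stepF p s R hs]
    generalize stepF p s = W at h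
    induction W generalizing Z with
    | nil =>
      simp only [List.foldr_nil, Option.some.injEq] at h
      subst h
      rfl
    | cons z W ihW =>
      simp only [List.foldr_cons] at h
      split at h
      · rename_i X Y hX hY
        simp only [Option.some.injEq] at h
        subst h
        rw [val_cons, val_append, val_scale hζ, ihW Y hY, ih z.2.2 X hX]
      · simp at h

/-- The two diagrams act in the same way on `s`, possibly followed by further strands. -/
def chk (D E : List Piece) (s : List CS) : Bool :=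
  match runF D s, runF E s with
  | some X, some Y => X.isPerm Y
  | _, _ => false

theorem actW_chk (hζ : ζ ^ 3 = 1) {D E : List Piece} {s : List CS} (h : chk D E s = true)
    (R : List CS) (k : Cont) : actW ζ D (s ++ R) k = actW ζ E (s ++ R) k := by
  unfold chk at h
  split at h
  · rename_i X Y hX hY
    rw [actW_runF hζ D s R k X hX, actW_runF hζ E s R k Y hY]
    unfold val
    exact ((List.isPerm_iff.1 h).map _).sum_eq
  · simp at h

/-- All coloured strands. -/
def allCS : List CS :=
  ((List.finRange 3).flatMap fun c => (List.finRange 3).map fun e => CS.pole c e) ++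
    ([true, false].flatMap fun u => (List.finRange 8).map fun S => CS.web u S)

theorem mem_allCS (x : CS) : x ∈ allCS := by
  cases x with
  | pole c e =>
    refine List.mem_append_left _ (List.mem_flatMap.2 ⟨c, List.mem_finRange _, ?_⟩)
    exact List.mem_map.2 ⟨e, List.mem_finRange _, rfl⟩
  | web u S =>
    refine List.mem_append_right _ (List.mem_flatMap.2 ⟨u, by cases u <;> simp, ?_⟩)
    exact List.mem_map.2 ⟨S, List.mem_finRange _, rfl⟩

/-! CHECKS -/

theorem chk_slideMerge : ∀ kl ∈ [(1, 1), (1, 2), (2, 1)], ∀ o ∈ [true, false],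
    ∀ S ∈ (List.finRange 8).filter fun S => card S = (kl : ℕ × ℕ).1,
    ∀ T ∈ (List.finRange 8).filter fun T => card T = kl.2, ∀ x ∈ allCS,
      chk (merge 0 kl.1 kl.2 :: (if kl.1 + kl.2 < 3 then [cr 0 o] else []))
        [cr 1 o, cr 0 o, merge 1 kl.1 kl.2] [CS.web true S, CS.web true T, x] = true := by
  decide +kernel

theorem chk_slideSplit_two : ∀ o ∈ [true, false], ∀ x ∈ allCS, ∀ y ∈ allCS,
      chk [cr 0 o, split 1 1 1] [split 0 1 1, cr 1 o, cr 0 o] [x, y] = true := by
  decide +kernel

theorem chk_slideSplit_three : ∀ kl ∈ [(1, 2), (2, 1)], ∀ o ∈ [true, false], ∀ x ∈ allCS,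
      chk [split 1 (kl : ℕ × ℕ).1 kl.2] [split 0 kl.1 kl.2, cr 1 o, cr 0 o] [x] = true := by
  decide +kernel

theorem chk_turnMerge_two : ∀ x ∈ allCS,
      chk [cup 1 true 1, cup 2 true 1, merge 1 1 1, cap 0]
        [cup 0 false 1, cup 1 false 1, merge 2 1 1, cap 2] [x] = true := by
  decide +kernel

theorem chk_turnMerge_three : ∀ kl ∈ [(1, 2), (2, 1)],
      chk [cup 0 true (kl : ℕ × ℕ).1, cup 1 true kl.2, merge 0 kl.1 kl.2]
        [cup 0 false kl.2, cup 1 false kl.1, merge 2 kl.1 kl.2] [] = true := by
  decide +kernel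

theorem chk_turnSplit_two : ∀ x ∈ allCS, ∀ y ∈ allCS,
      chk [cup 2 true 2, split 2 1 1, cap 1, cap 0]
        [cup 0 false 2, split 1 1 1, cap 2, cap 1] [x, y] = true := by
  decide +kernel

theorem chk_turnSplit_three : ∀ kl ∈ [(1, 2), (2, 1)], ∀ x ∈ allCS, ∀ y ∈ allCS,
      chk [split 2 (kl : ℕ × ℕ).1 kl.2, cap 1, cap 0]
        [split 0 kl.1 kl.2, cap 1, cap 0] [x, y] = true := by
  decide +kernel

/-! ASSEMBLY -/

theorem step_len {d : ℕ} {p : Piece} {s t : List Str} (h : Step d p s t) :
    p.pos + p.inn d ≤ s.length := by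
  cases h with
  | cup A B u k h => simp [Piece.pos, Piece.inn]
  | cap A B u k => simp [Piece.pos, Piece.inn]
  | cr A B x y o h => simp [Piece.pos, Piece.inn]
  | merge A B k l h => simp [Piece.pos, Piece.inn]
  | split A B k l h => simp [Piece.pos, Piece.inn, length_lab]

theorem step_len_out {d : ℕ} {p : Piece} {s t : List Str} (h : Step d p s t) :
    t.length + p.inn d = s.length + p.out d := by
  cases h with
  | cup A B u k h => simp [Piece.out, Piece.inn]; omega
  | cap A B u k => simp [Piece.out, Piece.inn]; omega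
  | cr A B x y o h => simp [Piece.out, Piece.inn]
  | merge A B k l h => simp [Piece.out, Piece.inn, length_lab]; omega
  | split A B k l h => simp [Piece.out, Piece.inn, length_lab]; omega

theorem exists_split {cs : List CS} {i n : ℕ} (h : i + n ≤ cs.length) :
    ∃ A b B : List CS, cs = A ++ (b ++ B) ∧ A.length = i ∧ b.length = n := by
  refine ⟨cs.take i, (cs.drop i).take n, (cs.drop i).drop n, ?_, ?_, ?_⟩
  · rw [List.take_append_drop, List.take_append_drop]
  · rw [List.length_take]; omega
  · rw [List.length_take, List.length_drop]; omega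

theorem actW_of_chk (hζ : ζ ^ 3 = 1) {D E : List Piece} {D₀ E₀ : List Piece} {A b : List CS}
    (B : List CS) (hD : D = D₀.map (shift A.length)) (hE : E = E₀.map (shift A.length))
    (h : chk D₀ E₀ b = true) (k : Cont) :
    actW ζ D (A ++ (b ++ B)) k = actW ζ E (A ++ (b ++ B)) k := by
  rw [hD, hE, actW_shift, actW_shift]
  exact actW_chk hζ h B _

theorem ty_web {c : CS} {u : Bool} {k : ℕ} (h : ty c = Str.web u k) :
    ∃ S : Fin 8, c = CS.web u S ∧ card S = k := by
  cases c with
  | pole c e => simp [ty] at h
  | web u' S =>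
    simp only [ty, Str.web.injEq] at h
    obtain ⟨rfl, h⟩ := h
    exact ⟨S, rfl, h⟩

theorem kl_cases {k l : ℕ} (h : 0 < k ∧ 0 < l ∧ k + l ≤ 3) :
    (k = 1 ∧ l = 1) ∨ (k = 1 ∧ l = 2) ∨ (k = 2 ∧ l = 1) := by omega

theorem merge_pos {i k l : ℕ} {s t : List Str} (h : Step 3 (merge i k l) s t) :
    (0 < k ∧ 0 < l ∧ k + l ≤ 3) ∧ ∃ A B : List Str, A.length = i ∧
      s = A ++ ([web true k, web true l] ++ B) := by
  generalize hp : merge i k l = p at h
  cases h with
  | merge A B k' l' h' =>
    simp only [Piece.merge.injEq] at hp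
    obtain ⟨rfl, rfl, rfl⟩ := hp
    exact ⟨h', A, B, rfl, by simp⟩
  | _ => simp at hp

theorem split_pos {i k l : ℕ} {s t : List Str} (h : Step 3 (split i k l) s t) :
    (0 < k ∧ 0 < l ∧ k + l ≤ 3) := by
  generalize hp : split i k l = p at h
  cases h with
  | split A B k' l' h' =>
    simp only [Piece.split.injEq] at hp
    obtain ⟨rfl, rfl, rfl⟩ := hp
    exact h'
  | _ => simp at hp

end VertM

open VertM

/-- The moves with vertices. -/
inductive Vert : List Piece → List Piece → Prop
  | slideMerge (i k l : ℕ) (o : Bool) :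
      Vert (merge i k l :: (if k + l < 3 then [cr i o] else []))
        [cr (i + 1) o, cr i o, merge (i + 1) k l]
  | slideSplit (i k l : ℕ) (o : Bool) :
      Vert ((if k + l < 3 then [cr i o] else []) ++ [split (i + 1) k l])
        [split i k l, cr (i + 1) o, cr i o]
  | turnMerge (i k l : ℕ) :
      Vert ([cup (i + vis 3 (k + l)) true k, cup (i + vis 3 (k + l) + 1) true l,
          merge (i + vis 3 (k + l)) k l] ++ (if k + l < 3 then [cap i] else []))
        ([cup i false l, cup (i + 1) false k, merge (i + 2) k l] ++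
          (if k + l < 3 then [cap (i + 2)] else []))
  | turnSplit (i k l : ℕ) :
      Vert ((if k + l < 3 then [cup (i + 2) true (k + l)] else []) ++
          [split (i + 2) k l, cap (i + 1), cap i])
        ((if k + l < 3 then [cup i false (k + l)] else []) ++
          [split (i + vis 3 (k + l)) k l, cap (i + vis 3 (k + l) + 1), cap (i + vis 3 (k + l))])

theorem actW_vert {ζ : ℂ} (hζ : ζ ^ 3 = 1) {D E : List Piece} (h : Vert D E) {s t : List Str}
    (hD : Run 3 D s t) (hE : Run 3 E s t) (cs : List CS) (hcs : cs.map ty = s) (k : Cont) :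
    actW ζ D cs k = actW ζ E cs k := by
  have hlen : s.length = cs.length := by rw [← hcs, List.length_map]
  cases h with
  | slideMerge i m n o =>
    obtain ⟨r, h1, -⟩ := hD
    obtain ⟨r', h2, -⟩ := hE
    obtain ⟨hmn, A, B, hA, hs⟩ := merge_pos h1
    have hl := step_len h2
    rw [hlen] at hl
    simp only [Piece.pos, Piece.inn] at hl
    obtain ⟨A', b, B', rfl, hA', hb⟩ := exists_split (i := i) (n := 3) (cs := cs) (by omega)
    match b, hb with
    | [c₁, c₂, x], _ =>
      rw [hs, List.map_append, List.map_append] at hcs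
      obtain ⟨-, h3⟩ := List.append_inj hcs (by simp [hA, hA'])
      simp only [List.map_cons, List.map_nil, List.cons_append, List.nil_append,
        List.cons.injEq] at h3
      obtain ⟨S, rfl, hS⟩ := ty_web h3.1
      obtain ⟨T, rfl, hT⟩ := ty_web h3.2.1
      subst hA'
      have key := chk_slideMerge
      rcases kl_cases hmn with ⟨rfl, rfl⟩ | ⟨rfl, rfl⟩ | ⟨rfl, rfl⟩
      · refine actW_of_chk hζ B' (D₀ := [merge 0 1 1, cr 0 o])
          (E₀ := [cr 1 o, cr 0 o, merge 1 1 1]) ?_ ?_ ?_ k
        · simp [Piece.shift]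
        · simp [Piece.shift, Nat.add_comm]
        · exact key (1, 1) (by simp) o (by cases o <;> simp) S
            (by simpa using hS) T (by simpa using hT) x (mem_allCS x)
      · refine actW_of_chk hζ B' (D₀ := [merge 0 1 2])
          (E₀ := [cr 1 o, cr 0 o, merge 1 1 2]) ?_ ?_ ?_ k
        · simp [Piece.shift]
        · simp [Piece.shift, Nat.add_comm]
        · exact key (1, 2) (by simp) o (by cases o <;> simp) S
            (by simpa using hS) T (by simpa using hT) x (mem_allCS x)
      · refine actW_of_chk hζ B' (D₀ := [merge 0 2 1])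
          (E₀ := [cr 1 o, cr 0 o, merge 1 2 1]) ?_ ?_ ?_ k
        · simp [Piece.shift]
        · simp [Piece.shift, Nat.add_comm]
        · exact key (2, 1) (by simp) o (by cases o <;> simp) S
            (by simpa using hS) T (by simpa using hT) x (mem_allCS x)
  | slideSplit i m n o =>
    obtain ⟨r', h2, -⟩ := hE
    have hmn := split_pos h2
    rcases kl_cases hmn with ⟨rfl, rfl⟩ | hmn'
    · simp only [Nat.reduceAdd, Nat.reduceLT, ↓reduceIte, List.cons_append,
        List.nil_append] at hD ⊢
      obtain ⟨r, h1, -⟩ := hD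
      have hl := step_len h1
      rw [hlen] at hl
      simp only [Piece.pos, Piece.inn] at hl
      obtain ⟨A', b, B', rfl, hA', hb⟩ := exists_split (i := i) (n := 2) (cs := cs) (by omega)
      subst hA'
      match b, hb with
      | [x, y], _ =>
        refine actW_of_chk hζ B' (D₀ := [cr 0 o, split 1 1 1])
          (E₀ := [split 0 1 1, cr 1 o, cr 0 o]) ?_ ?_ ?_ k
        · simp [Piece.shift, Nat.add_comm]
        · simp [Piece.shift, Nat.add_comm]
        · exact chk_slideSplit_two o (by cases o <;> simp) x (mem_allCS x) y (mem_allCS y)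
    · have h3 : m + n = 3 := by omega
      simp only [h3, lt_irrefl, ↓reduceIte, List.nil_append] at hD ⊢
      obtain ⟨r, h1, -⟩ := hD
      have hl := step_len h1
      rw [hlen] at hl
      simp only [Piece.pos, Piece.inn] at hl
      obtain ⟨A', b, B', rfl, hA', hb⟩ := exists_split (i := i) (n := 1) (cs := cs) (by omega)
      subst hA'
      match b, hb with
      | [x], _ =>
        refine actW_of_chk hζ B' (D₀ := [split 1 m n])
          (E₀ := [split 0 m n, cr 1 o, cr 0 o]) ?_ ?_ ?_ k
        · simp [Piece.shift, Nat.add_comm]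
        · simp [Piece.shift, Nat.add_comm]
        · exact chk_slideSplit_three (m, n) (by
            rcases hmn' with ⟨rfl, rfl⟩ | ⟨rfl, rfl⟩ <;> simp) o (by cases o <;> simp) x
            (mem_allCS x)
  | turnMerge i m n =>
    have hmn : 0 < m ∧ 0 < n ∧ m + n ≤ 3 := by
      obtain ⟨r₁, -, r₂, -, r₃, h3, -⟩ := hD
      exact (merge_pos h3).1
    rcases kl_cases hmn with ⟨rfl, rfl⟩ | hmn'
    · have hv : vis 3 (1 + 1) = 1 := by simp [vis]
      rw [hv] at hD ⊢
      simp only [Nat.reduceAdd, Nat.reduceLT, ↓reduceIte, List.cons_append,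
        List.nil_append] at hD ⊢
      obtain ⟨r, h1, -⟩ := hD
      have hl := step_len h1
      rw [hlen] at hl
      simp only [Piece.pos, Piece.inn] at hl
      obtain ⟨A', b, B', rfl, hA', hb⟩ := exists_split (i := i) (n := 1) (cs := cs) (by omega)
      subst hA'
      match b, hb with
      | [x], _ =>
        refine actW_of_chk hζ B' (D₀ := [cup 1 true 1, cup 2 true 1, merge 1 1 1, cap 0])
          (E₀ := [cup 0 false 1, cup 1 false 1, merge 2 1 1, cap 2]) ?_ ?_ ?_ k
        · simp [Piece.shift, Nat.add_comm, Nat.add_left_comm]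
        · simp [Piece.shift, Nat.add_comm]
        · exact chk_turnMerge_two x (mem_allCS x)
    · have h3 : m + n = 3 := by omega
      have hv : vis 3 3 = 0 := by simp [vis]
      rw [h3, hv] at hD ⊢
      simp only [lt_irrefl, ↓reduceIte, List.append_nil, Nat.add_zero] at hD ⊢
      obtain ⟨r, h1, -⟩ := hD
      have hl := step_len h1
      rw [hlen] at hl
      simp only [Piece.pos, Piece.inn] at hl
      obtain ⟨A', b, B', rfl, hA', hb⟩ := exists_split (i := i) (n := 0) (cs := cs) (by omega)
      subst hA'
      match b, hb with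
      | [], _ =>
        refine actW_of_chk hζ B' (D₀ := [cup 0 true m, cup 1 true n, merge 0 m n])
          (E₀ := [cup 0 false n, cup 1 false m, merge 2 m n]) ?_ ?_ ?_ k
        · simp [Piece.shift, Nat.add_comm]
        · simp [Piece.shift, Nat.add_comm]
        · exact chk_turnMerge_three (m, n) (by
            rcases hmn' with ⟨rfl, rfl⟩ | ⟨rfl, rfl⟩ <;> simp)
  | turnSplit i m n =>
    have hmn : 0 < m ∧ 0 < n ∧ m + n ≤ 3 := by
      rw [run_append] at hD
      obtain ⟨r₁, -, r₂, h3, -⟩ := hD
      exact split_pos h3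
    rcases kl_cases hmn with ⟨rfl, rfl⟩ | hmn'
    · have hv : vis 3 (1 + 1) = 1 := by simp [vis]
      rw [hv] at hE ⊢
      simp only [Nat.reduceAdd, Nat.reduceLT, ↓reduceIte, List.cons_append,
        List.nil_append] at hD hE ⊢
      obtain ⟨r, h1, -⟩ := hD
      have hl := step_len h1
      rw [hlen] at hl
      simp only [Piece.pos, Piece.inn] at hl
      obtain ⟨A', b, B', rfl, hA', hb⟩ := exists_split (i := i) (n := 2) (cs := cs) (by omega)
      subst hA'
      match b, hb with
      | [x, y], _ =>
        refine actW_of_chk hζ B' (D₀ := [cup 2 true 2, split 2 1 1, cap 1, cap 0])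
          (E₀ := [cup 0 false 2, split 1 1 1, cap 2, cap 1]) ?_ ?_ ?_ k
        · simp [Piece.shift, Nat.add_comm]
        · simp [Piece.shift, Nat.add_comm, Nat.add_left_comm]
        · exact chk_turnSplit_two x (mem_allCS x) y (mem_allCS y)
    · have h3 : m + n = 3 := by omega
      have hv : vis 3 3 = 0 := by simp [vis]
      rw [h3, hv] at hE ⊢
      rw [h3] at hD
      simp only [lt_irrefl, ↓reduceIte, List.nil_append, Nat.add_zero] at hD hE ⊢
      obtain ⟨r, h1, -⟩ := hD
      have hl := step_len h1
      rw [hlen] at hl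
      simp only [Piece.pos, Piece.inn] at hl
      obtain ⟨A', b, B', rfl, hA', hb⟩ := exists_split (i := i) (n := 2) (cs := cs) (by omega)
      subst hA'
      match b, hb with
      | [x, y], _ =>
        refine actW_of_chk hζ B' (D₀ := [split 2 m n, cap 1, cap 0])
          (E₀ := [split 0 m n, cap 1, cap 0]) ?_ ?_ ?_ k
        · simp [Piece.shift, Nat.add_comm]
        · simp [Piece.shift, Nat.add_comm]
        · exact chk_turnSplit_three (m, n) (by
            rcases hmn' with ⟨rfl, rfl⟩ | ⟨rfl, rfl⟩ <;> simp) x (mem_allCS x) y (mem_allCS y)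

end Pool.Agent.Helper26.SK
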